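import Mathlib
import Pool.Agent.Run7.h680.SDE

/-!
# MP_9415b6_co: question Q2 for `n = p ^ 2`

For an odd prime `p`, `n = p ^ 2`, `1 ≤ k ≤ n - 1` and `x` modulo `n`, the nonzero elements of `ℤ/n`
with the `k`-element sets of nonzero elements of sum `x` as blocks form a 1-design exactly when
`x = 0`, `k ≠ 1`, `k ≠ n - 2`, and `k < p` or `n - p ≤ k` or `p + 1` divides `k`.
-/

set_option autoImplicit false

namespace Pool.Agent.Results.MP_9415b6_co.PrimeSquareStar
open Finset

/-- `B_k^{x,*}`: the `k`-element sets of nonzero elements of `ℤ/n` with sum `x`. -/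
def Blocks (n k : ℕ) [NeZero n] (x : ZMod n) : Finset (Finset (ZMod n)) :=
  ((univ.erase (0 : ZMod n)).powersetCard k).filter (fun T => ∑ t ∈ T, t = x)

/-- `(ℤ/n minus 0, B_k^{x,*})` is a 1-design: there is a block, and every nonzero element lies in
the same number of blocks. -/
def IsOneDesign (n k : ℕ) [NeZero n] (x : ZMod n) : Prop :=
  (Blocks n k x).Nonempty ∧
    ∃ r : ℕ, ∀ y : ZMod n, y ≠ 0 → ((Blocks n k x).filter (fun T => y ∈ T)).card = r

open Pool.Agent.Run7.h680.SD in
theorem result (p : ℕ) (hp : p.Prime) (hodd : p ≠ 2) [NeZero (p ^ 2)] (k : ℕ) (hk : 1 ≤ k)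
    (hk2 : k ≤ p ^ 2 - 1) (x : ZMod (p ^ 2)) :
    IsOneDesign (p ^ 2) k x ↔
      x = 0 ∧ k ≠ 1 ∧ k ≠ p ^ 2 - 2 ∧ (k < p ∨ p ^ 2 - p ≤ k ∨ (p + 1) ∣ k) := by
  classical
  have hp3 : 3 ≤ p := by
    have := hp.two_le
    omega
  have hn9 : 9 ≤ p ^ 2 := by nlinarith
  have hpn : p ≤ p ^ 2 := Nat.le_self_pow (by norm_num) p
  have hsum : ∑ t : ZMod (p ^ 2), t = 0 := by
    rw [Pool.Agent.R865.DS.sum_univ_zmod, ZMod.natCast_eq_zero_iff]
    obtain ⟨t, ht⟩ := (hp.eq_two_or_odd'.resolve_left hodd).pow (n := 2)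
    rw [ht, Nat.add_sub_cancel]
    exact ⟨t, by rw [show (2 * t + 1) * (2 * t) = 2 * ((2 * t + 1) * t) by ring,
      Nat.mul_div_cancel_left _ (by norm_num)]⟩
  have hsum' : ∑ t ∈ univ.erase (0 : ZMod (p ^ 2)), t = 0 := by
    have := Finset.add_sum_erase univ (fun t : ZMod (p ^ 2) => t) (Finset.mem_univ 0)
    rw [zero_add] at this
    rw [this]; exact hsum
  have hcard : (univ.erase (0 : ZMod (p ^ 2))).card = p ^ 2 - 1 := by
    rw [Finset.card_erase_of_mem (Finset.mem_univ _), Finset.card_univ, ZMod.card]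
  rcases Nat.lt_or_ge k (p ^ 2 - 1) with hlt | hge
  · have hdes : IsOneDesign (p ^ 2) k x ↔ (Blocks (p ^ 2) k x).Nonempty ∧
        Cst p k ((x.val : ℕ) : ℤ) := by
      have h := cst_iff hp hk (by omega) ((x.val : ℕ) : ℤ)
      have hx2 : (((x.val : ℕ) : ℤ) : ZMod (p ^ 2)) = x := by
        rw [Int.cast_natCast, ZMod.natCast_zmod_val]
      rw [hx2] at h
      exact and_congr_right' h
    rw [hdes]
    by_cases h1 : (p : ℤ) ∣ ((x.val : ℕ) : ℤ)
    · obtain ⟨a, ha⟩ := h1
      by_cases h2 : (p : ℤ) ∣ a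
      · -- x = 0
        obtain ⟨c, hc⟩ := h2
        have hx0 : x = 0 := by
          rw [← ZMod.natCast_zmod_val x, ZMod.natCast_eq_zero_iff]
          have : ((p ^ 2 : ℕ) : ℤ) ∣ ((x.val : ℕ) : ℤ) := ⟨c, by rw [ha, hc]; push_cast; ring⟩
          exact_mod_cast this
        subst hx0
        rw [ZMod.val_zero, Nat.cast_zero, L3 hp hodd hlt]
        have hne : (Blocks (p ^ 2) k (0 : ZMod (p ^ 2))).Nonempty ↔ (k ≠ 1 ∧ k ≠ p ^ 2 - 2) := by
          constructor
          · rintro ⟨A, hA⟩
            rw [Blocks, Finset.mem_filter, Finset.mem_powersetCard] at hA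
            obtain ⟨⟨hA1, hA2⟩, hA3⟩ := hA
            constructor
            · rintro rfl
              obtain ⟨y, rfl⟩ := Finset.card_eq_one.1 hA2
              rw [Finset.sum_singleton] at hA3
              exact (Finset.mem_erase.1 (hA1 (Finset.mem_singleton_self y))).1 hA3
            · intro hk'
              have h3 : ((univ.erase (0 : ZMod (p ^ 2))) \ A).card = 1 := by
                rw [Finset.card_sdiff_of_subset hA1, hcard, hA2]
                omega
              obtain ⟨y, hy⟩ := Finset.card_eq_one.1 h3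
              have h4 := Finset.sum_sdiff (f := fun t : ZMod (p ^ 2) => t) hA1
              rw [hy, Finset.sum_singleton, hA3, hsum', add_zero] at h4
              have h5 : y ∈ (univ.erase (0 : ZMod (p ^ 2))) \ A := by
                rw [hy]; exact Finset.mem_singleton_self y
              exact (Finset.mem_erase.1 (Finset.mem_sdiff.1 h5).1).1 h4
          · rintro ⟨h3, h4⟩
            have h5 : p ^ 2 ≤ k * (p ^ 2 - 1 - k) + 1 := by
              obtain ⟨K, hK⟩ : ∃ K, k = K + 2 := ⟨k - 2, by omega⟩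
              obtain ⟨M, hM⟩ : ∃ M, p ^ 2 = K + M + 5 := ⟨p ^ 2 - K - 5, by omega⟩
              rw [hM, hK]
              have : K + M + 5 - 1 - (K + 2) = M + 2 := by omega
              rw [this]
              nlinarith [Nat.zero_le (K * M)]
            obtain ⟨D, hD, hD2⟩ := Pool.Agent.R865.DS.cover h5 (by omega) (0 : ZMod (p ^ 2))
            exact ⟨D, by rw [Blocks, Finset.mem_filter]; exact ⟨hD, hD2⟩⟩
        rw [hne]
        tauto
      · constructor
        · rintro ⟨-, h3⟩
          rw [ha] at h3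
          exact absurd h3 (L2 hp hodd h2 hk hlt)
        · rintro ⟨rfl, -⟩
          exfalso
          rw [ZMod.val_zero, Nat.cast_zero] at ha
          have hpz : (p : ℤ) ≠ 0 := by exact_mod_cast hp.ne_zero
          have : a = 0 := (mul_eq_zero.1 ha.symm).resolve_left hpz
          exact h2 (this ▸ dvd_zero _)
    · constructor
      · rintro ⟨-, h3⟩
        exact absurd h3 (L1 hp h1 hk hlt)
      · rintro ⟨rfl, -⟩
        exfalso
        rw [ZMod.val_zero, Nat.cast_zero] at h1
        exact h1 (dvd_zero _)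
  · have hkn : k = p ^ 2 - 1 := by omega
    subst hkn
    have hB : Blocks (p ^ 2) (p ^ 2 - 1) x =
        if x = 0 then {univ.erase (0 : ZMod (p ^ 2))} else ∅ := by
      have h1 : (univ.erase (0 : ZMod (p ^ 2))).powersetCard (p ^ 2 - 1) =
          {univ.erase (0 : ZMod (p ^ 2))} := by
        have := Finset.powersetCard_self (univ.erase (0 : ZMod (p ^ 2)))
        rwa [hcard] at this
      rw [Blocks, h1, Finset.filter_singleton, hsum']
      by_cases hx : x = 0
      · rw [if_pos hx, if_pos hx.symm]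
      · rw [if_neg hx, if_neg (fun h => hx h.symm)]
    constructor
    · rintro ⟨h1, -⟩
      rw [hB] at h1
      by_cases hx : x = 0
      · exact ⟨hx, by omega, by omega, Or.inr (Or.inl (by omega))⟩
      · rw [if_neg hx] at h1
        exact absurd h1 (by simp)
    · rintro ⟨hx, -⟩
      rw [IsOneDesign, hB, if_pos hx]
      refine ⟨Finset.singleton_nonempty _, 1, ?_⟩
      intro y hy
      rw [Finset.filter_singleton, if_pos (Finset.mem_erase.2 ⟨hy, Finset.mem_univ _⟩),
        Finset.card_singleton]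

end Pool.Agent.Results.MP_9415b6_co.PrimeSquareStar
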