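import Mathlib
import Pool.Agent.Run7.h840.OD.Avg

/-!
# MP_9415b6_co, Q2: subset-sum designs on `ℤ_n` minus zero with proportional block sizes

Let `v` divide `p - 1` for every prime divisor `p` of `n` and let `k v` be a multiple of `n - 1`,
`2 ≤ k ≤ n - 3`.  Then the `k`-subsets of `ℤ_n` minus zero with sum `0` form a 1-design.

With `k = w (n - 1) / v` put `ω = ψ (a y)` for a character value and let `q` be the order of `a`.
Up to the weight `± binom (n/q - 1) (w (n/q - 1)/v)`, which depends on `q` only, the contribution of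
`a` to the number of blocks through `y` is `v (ω + ... + ω^k) - w (ω + ... + ω^n)`.  The sum of these
numbers over the `a` with `s a = 0` is `- w s` for every divisor `s` of `n` and every `y`; so their
sum over the `a` of a given order does not depend on `y`.
-/

set_option autoImplicit false

namespace Pool.Agent.Results.MP_9415b6_co.ProportionalBlocks
open Finset

/-- `B_k^{x,*}`: the `k`-element subsets of `ℤ/n` minus zero with sum `x`. -/
def Blocks (n k : ℕ) [NeZero n] (x : ZMod n) : Finset (Finset (ZMod n)) :=
  (((univ : Finset (ZMod n)).erase 0).powersetCard k).filter (fun T => ∑ t ∈ T, t = x)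

/-- `(ℤ/n minus zero, B_k^{x,*})` is a 1-design: there is a block, and every nonzero point lies in
the same number of blocks. -/
def IsOneDesign (n k : ℕ) [NeZero n] (x : ZMod n) : Prop :=
  (Blocks n k x).Nonempty ∧
    ∃ r : ℕ, ∀ y : ZMod n, y ≠ 0 → ((Blocks n k x).filter (fun T => y ∈ T)).card = r

lemma divisors_mod {n v : ℕ} (hv : ∀ p : ℕ, p.Prime → p ∣ n → v ∣ p - 1) (hn : n ≠ 0) :
    ∀ d : ℕ, d ∣ n → v ∣ d - 1 := by
  intro d
  induction d using Nat.strong_induction_on with
  | _ d ih =>
    intro hd
    rcases eq_or_ne d 1 with h1 | h1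
    · rw [h1]; exact dvd_zero _
    · have hd0 : 0 < d := Nat.pos_of_dvd_of_pos hd (Nat.pos_of_ne_zero hn)
      have hp := Nat.minFac_prime h1
      obtain ⟨e, he⟩ := Nat.minFac_dvd d
      have hp2 := hp.two_le
      have he0 : 0 < e := by
        rcases Nat.eq_zero_or_pos e with h | h
        · rw [h, mul_zero] at he; omega
        · exact h
      have hed : e < d := by nlinarith
      have h2 := ih e hed ((Dvd.intro_left _ he.symm).trans hd)
      have h3 := hv _ hp ((Nat.minFac_dvd d).trans hd)
      have h4 : d - 1 = d.minFac * (e - 1) + (d.minFac - 1) := by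
        obtain ⟨f, rfl⟩ : ∃ f, e = f + 1 := ⟨e - 1, by omega⟩
        have : d.minFac * (f + 1) = d.minFac * f + d.minFac := by ring
        simp only [Nat.add_sub_cancel]
        omega
      rw [h4]
      exact dvd_add (h2.mul_left _) h3

/-- **If `v` divides `p - 1` for all primes `p ∣ n` and `n - 1` divides `k v`, then the `k`-subsets
with sum zero of `ℤ_n` minus zero form a 1-design.** -/
theorem result (n k v : ℕ) [NeZero n] (hv : ∀ p : ℕ, p.Prime → p ∣ n → v ∣ p - 1)
    (hk : n - 1 ∣ k * v) (h2 : 2 ≤ k) (h3 : k ≤ n - 3) : IsOneDesign n k 0 := by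
  have hn : 2 ≤ n := by omega
  obtain ⟨w, hw⟩ := hk
  have hmin := Nat.minFac_prime (n := n) (by omega)
  have hv0 : 1 ≤ v := by
    rcases Nat.eq_zero_or_pos v with h | h
    · have h4 := hv _ hmin (Nat.minFac_dvd n)
      rw [h, zero_dvd_iff] at h4
      have := hmin.two_le
      omega
    · exact h
  have hw1 : 1 ≤ w := by
    rcases Nat.eq_zero_or_pos w with h | h
    · rw [h, mul_zero] at hw
      rcases Nat.mul_eq_zero.1 hw with h5 | h5 <;> omega
    · exact h
  have hwv : w < v := by
    by_contra hcon
    push Not at hcon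
    have h4 : (n - 1) * v ≤ (n - 1) * w := Nat.mul_le_mul_left _ hcon
    have h5 : k * v < (n - 1) * v := Nat.mul_lt_mul_of_pos_right (by omega) hv0
    omega
  have hno : Odd n := by
    rw [← Nat.not_even_iff_odd]
    intro he
    have h4 := hv 2 Nat.prime_two he.two_dvd
    have := Nat.le_of_dvd (by norm_num) h4
    omega
  refine ⟨Run7.h840.OD.Small.nonempty_of h2 h3 0,
    Run7.h840.OD.Small.N n k 0 1, fun y hy => ?_⟩
  exact Run7.h840.OD.N_const hn hno hw1 hwv (divisors_mod hv (NeZero.ne n))
    (by rw [mul_comm v k, hw, mul_comm]) hy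

end Pool.Agent.Results.MP_9415b6_co.ProportionalBlocks
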