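import Mathlib
import Pool.Agent.Run7.h631.SD.Gen

/-!
# MP_9415b6_co, Q2: subset-sum 1-designs on the nonzero elements of `ℤ/n`

Odd `n`, least prime factor `n.minFac`.
(1) Block sizes `k ≤ n.minFac` or `k ≥ n - 1 - n.minFac`: all 1-designs.
(2) `n = p²`: all 1-designs.
(3) The middle size `k = (n - 1) / 2` with `x = 0`.
(4) `x = 0` and `k` or `n - 1 - k` at most a full prime power component of `n`.
(5) `n = p^a`, `x ≠ 0`: no 1-design unless the order of `x` divides `k` or `k + 1`.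
(6) No 1-designs for `x ≠ 0` and `k` or `n - 1 - k` at most a full prime power component `p^a` of
`n`, with a condition on the residue of the size modulo the order of `x`.
-/

set_option autoImplicit false

namespace Pool.Agent.Results.MP_9415b6_co.StarDesigns
open Finset

/-- `B_k^{x,*}`: the `k`-element subsets of `ℤ/n ∖ {0}` with sum `x`. -/
def Blocks (n k : ℕ) [NeZero n] (x : ZMod n) : Finset (Finset (ZMod n)) :=
  ((univ.erase (0 : ZMod n)).powersetCard k).filter (fun T => ∑ t ∈ T, t = x)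

/-- `(ℤ/n ∖ {0}, B_k^{x,*})` is a 1-design: there is a block, and every nonzero point lies in the
same number of blocks. -/
def IsOneDesign (n k : ℕ) [NeZero n] (x : ZMod n) : Prop :=
  (Blocks n k x).Nonempty ∧
    ∃ r : ℕ, ∀ y : ZMod n, y ≠ 0 → ((Blocks n k x).filter (fun T => y ∈ T)).card = r

theorem result (n : ℕ) [NeZero n] (hn : Odd n) (h3 : 3 ≤ n) :
    (∀ k : ℕ, 1 ≤ k → k ≤ n - 1 → (k ≤ n.minFac ∨ n - 1 - k ≤ n.minFac) → ∀ x : ZMod n,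
      (IsOneDesign n k x ↔
        x = 0 ∧ 2 ≤ k ∧ k ≠ n - 2 ∧ k ≠ n.minFac ∧ n - 1 - k ≠ n.minFac)) ∧
    (∀ p : ℕ, p.Prime → n = p ^ 2 → ∀ k : ℕ, 1 ≤ k → k ≤ n - 1 → ∀ x : ZMod n,
      (IsOneDesign n k x ↔
        x = 0 ∧ 2 ≤ k ∧ k ≠ n - 2 ∧ (k < p ∨ n - 1 - k < p ∨ (p + 1) ∣ k))) ∧
    (5 ≤ n → IsOneDesign n ((n - 1) / 2) 0) ∧
    (∀ p a m : ℕ, p.Prime → n = p ^ a * m → 1 ≤ a → ¬ p ∣ m → ∀ k : ℕ, 1 ≤ k →
      ((m ≠ 1 ∧ k ≤ p ^ a) ∨ (m = 1 ∧ 2 ≤ a ∧ k ≤ p ^ (a - 1))) →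
      (IsOneDesign n k 0 ↔ 2 ≤ k ∧ k < n.minFac) ∧
      (IsOneDesign n (n - 1 - k) 0 ↔ 2 ≤ k ∧ k < n.minFac)) ∧
    (∀ p a : ℕ, p.Prime → n = p ^ a → ∀ k : ℕ, 1 ≤ k → k ≤ n - 1 → ∀ x : ZMod n, x ≠ 0 →
      ¬ addOrderOf x ∣ k → ¬ addOrderOf x ∣ k + 1 → ¬ IsOneDesign n k x) ∧
    (∀ p a m : ℕ, p.Prime → n = p ^ a * m → 1 ≤ a → ∀ k : ℕ, 1 ≤ k → k ≤ n - 1 → k ≤ p ^ a →
      ∀ x : ZMod n, ∀ l : ℕ, addOrderOf x = p * l → 1 ≤ k % (p * l) → k % (p * l) ≤ (p - 2) * l →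
      ¬ IsOneDesign n k x ∧ ¬ IsOneDesign n (n - 1 - k) x) := by
  refine ⟨fun _ hk hkn hkp x => Pool.Agent.Run7.h631.SD.both hn h3 hk hkn hkp x, ?_,
    fun h5 => Pool.Agent.Run7.h631.SD.middle hn h5,
    fun p a m hp hnp ha hpm k hk hc =>
      Pool.Agent.Run7.h631.SD.special hn hp hnp ha hpm hc hk,
    fun p a hp hnp k hk hkn x hx h0 h1 =>
      Pool.Agent.Run7.h631.SD.pow_case hn hp hnp hk hkn hx h0 h1,
    fun p a m hp hnp ha k hk hkn hka x l hN h1 h2 =>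
      Pool.Agent.Run7.h631.SD.gen_both hn hp hnp ha hN hk hkn hka h1 h2⟩
  intro p hp hnp k hk hkn x
  have : Fact p.Prime := ⟨hp⟩
  have hodd : Odd p := by
    rw [hnp] at hn
    exact (Nat.odd_pow_iff (by norm_num)).1 hn
  exact Pool.Agent.Run7.h631.SD.square hnp hodd hk hkn x

end Pool.Agent.Results.MP_9415b6_co.StarDesigns
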